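import Pool.Agent.V5helper28.SSK.Defs

/-!
# JOB S: slices (Eilenberg's inequality for one coordinate)
-/

set_option autoImplicit false

namespace Pool.Agent.V5helper29.SSK

open MeasureTheory Set Filter Topology Metric
open Pool.Agent.V5helper28.SSK
open scoped ENNReal NNReal

/-- a cover of a set of measure zero -/
lemma exists_cover {X : Type*} [MetricSpace X] [MeasurableSpace X] [BorelSpace X] {q : ℝ} {K : Set X}
    (h0 : Measure.hausdorffMeasure q K = 0) {ε δ : ℝ≥0∞} (hε : 0 < ε) (hδ : 0 < δ) :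
    ∃ U : ℕ → Set X, K ⊆ ⋃ n, U n ∧ (∀ n, Metric.ediam (U n) ≤ δ) ∧
      ∑' n, ⨆ _ : (U n).Nonempty, Metric.ediam (U n) ^ q < ε := by
  rw [Measure.hausdorffMeasure_apply] at h0
  have h1 := le_of_eq h0
  have h2 := (iSup_le_iff.mp h1) δ
  have h3 := (iSup_le_iff.mp h2) hδ
  have h4 := lt_of_le_of_lt h3 hε
  simp only [iInf_lt_iff] at h4
  obtain ⟨U, hU, hd, hs⟩ := h4
  exact ⟨U, hU, hd, hs⟩

/-- the null form of Eilenberg's inequality -/
lemma null_slices {X Y : Type*} [MetricSpace X] [MeasurableSpace X] [BorelSpace X]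
    [MetricSpace Y] [MeasurableSpace Y] [BorelSpace Y] (π : X → ℝ) (hπ : LipschitzWith 1 π)
    (e : ℝ → Y → X) (he : ∀ t, Isometry (e t)) (hπe : ∀ t y, π (e t y) = t) {r : ℝ} (hr : 0 < r)
    {K : Set X} (hK : Measure.hausdorffMeasure (r + 1) K = 0) :
    ∀ᵐ t : ℝ, Measure.hausdorffMeasure r {y : Y | e t y ∈ K} = 0 := by
  have hpos : ∀ n : ℕ, (0 : ℝ≥0∞) < (2⁻¹ : ℝ≥0∞) ^ n := fun n => by
    apply ENNReal.pow_pos
    simp
  choose U hU hd hs using fun n : ℕ => exists_cover hK (hpos n) (hpos n)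
  -- the intervals
  set D : ℕ → ℕ → ℝ≥0∞ := fun n i => Metric.ediam (U n i) with hD
  have hDtop : ∀ n i, D n i ≠ ⊤ := fun n i => by
    refine ne_top_of_le_ne_top ?_ (hd n i)
    exact ENNReal.pow_ne_top (by simp)
  classical
  set I : ℕ → ℕ → Set ℝ := fun n i =>
    if h : (U n i).Nonempty then Metric.closedBall (π h.some) (D n i).toReal else ∅ with hI
  have hImeas : ∀ n i, MeasurableSet (I n i) := fun n i => by
    simp only [hI]
    split_ifs
    · exact isClosed_closedBall.measurableSet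
    · exact MeasurableSet.empty
  have hIvol : ∀ n i, volume (I n i) ≤ 2 * ⨆ _ : (U n i).Nonempty, D n i := fun n i => by
    simp only [hI]
    split_ifs with h
    · rw [Real.volume_closedBall, ENNReal.ofReal_mul (by norm_num), ENNReal.ofReal_toReal (hDtop n i)]
      simp [h]
    · simp
  have hImem : ∀ n i t y, e t y ∈ U n i → t ∈ I n i := fun n i t y hy => by
    have hne : (U n i).Nonempty := ⟨_, hy⟩
    simp only [hI, hne, dif_pos, Metric.mem_closedBall]
    have h1 : edist t (π hne.some) ≤ D n i := by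
      calc edist t (π hne.some) = edist (π (e t y)) (π hne.some) := by rw [hπe]
        _ ≤ 1 * edist (e t y) hne.some := hπ _ _
        _ = edist (e t y) hne.some := one_mul _
        _ ≤ D n i := Metric.edist_le_ediam_of_mem hy hne.some_mem
    rw [dist_edist]
    exact ENNReal.toReal_mono (hDtop n i) h1
  -- the functions
  set f : ℕ → ℝ → ℝ≥0∞ := fun n t => ∑' i, (I n i).indicator (fun _ => D n i ^ r) t with hf
  have hfmeas : ∀ n, Measurable (f n) := fun n => by
    simp only [hf]
    exact Measurable.tsum fun i => measurable_const.indicator (hImeas n i)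
  have hfint : ∀ n, ∫⁻ t, f n t ≤ 2 * (2⁻¹ : ℝ≥0∞) ^ n := fun n => by
    simp only [hf]
    rw [lintegral_tsum (fun i => (measurable_const.indicator (hImeas n i)).aemeasurable)]
    calc ∑' i, ∫⁻ t, (I n i).indicator (fun _ => D n i ^ r) t
        = ∑' i, D n i ^ r * volume (I n i) := by
          refine tsum_congr fun i => ?_
          rw [lintegral_indicator_const (hImeas n i)]
      _ ≤ ∑' i, 2 * ⨆ _ : (U n i).Nonempty, D n i ^ (r + 1) := by
          refine ENNReal.tsum_le_tsum fun i => ?_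
          by_cases h : (U n i).Nonempty
          · have := hIvol n i
            simp only [h, iSup_pos] at this ⊢
            calc D n i ^ r * volume (I n i) ≤ D n i ^ r * (2 * D n i) := by gcongr
              _ = 2 * (D n i ^ r * D n i) := by ring
              _ = 2 * D n i ^ (r + 1) := by
                rw [ENNReal.rpow_add_of_nonneg r 1 hr.le zero_le_one, ENNReal.rpow_one]
          · have := hIvol n i
            simp only [h, iSup_neg, not_false_eq_true] at this ⊢
            have h0 : volume (I n i) = 0 := by simpa using this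
            simp [h0]
      _ = 2 * ∑' i, ⨆ _ : (U n i).Nonempty, D n i ^ (r + 1) := ENNReal.tsum_mul_left
      _ ≤ 2 * (2⁻¹ : ℝ≥0∞) ^ n := by
          gcongr
          exact (hs n).le
  have hsum : ∫⁻ t, ∑' n, f n t ≠ ⊤ := by
    rw [lintegral_tsum (fun n => (hfmeas n).aemeasurable)]
    refine ne_top_of_le_ne_top ?_ (ENNReal.tsum_le_tsum hfint)
    rw [ENNReal.tsum_mul_left, ENNReal.tsum_geometric]
    refine ENNReal.mul_ne_top (by simp) ?_
    simp
  have hae := ae_lt_top (Measurable.tsum hfmeas) hsum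
  filter_upwards [hae] with t ht
  have htend : Tendsto (fun n => f n t) atTop (𝓝 0) := by
    exact ENNReal.tendsto_atTop_zero_of_tsum_ne_top ht.ne
  have hcov : ∀ n, {y : Y | e t y ∈ K} ⊆ ⋃ i, {y : Y | e t y ∈ U n i} := fun n y hy => by
    obtain ⟨i, hi⟩ := mem_iUnion.mp (hU n hy)
    exact mem_iUnion.mpr ⟨i, hi⟩
  have hdiam : ∀ n i, Metric.ediam {y : Y | e t y ∈ U n i} ≤ D n i := fun n i => by
    refine Metric.ediam_le fun y hy z hz => ?_
    rw [← (he t).edist_eq y z]
    exact Metric.edist_le_ediam_of_mem hy hz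
  have hle := Measure.hausdorffMeasure_le_liminf_tsum r {y : Y | e t y ∈ K} (l := atTop)
    (fun n : ℕ => (2⁻¹ : ℝ≥0∞) ^ n) (ENNReal.tendsto_pow_atTop_nhds_zero_of_lt_one (by simp))
    (fun n i => {y : Y | e t y ∈ U n i})
    (Eventually.of_forall fun n i => (hdiam n i).trans (hd n i))
    (Eventually.of_forall hcov)
  have hle2 : liminf (fun n => ∑' i, Metric.ediam {y : Y | e t y ∈ U n i} ^ r) atTop ≤ 0 := by
    have h1 : liminf (fun n => ∑' i, Metric.ediam {y : Y | e t y ∈ U n i} ^ r) atTop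
        ≤ liminf (fun n => f n t) atTop := by
      refine liminf_le_liminf (Eventually.of_forall fun n => ?_)
      refine ENNReal.tsum_le_tsum fun i => ?_
      by_cases hne : {y : Y | e t y ∈ U n i}.Nonempty
      · obtain ⟨y, hy⟩ := hne
        rw [indicator_of_mem (hImem n i t y hy)]
        exact ENNReal.rpow_le_rpow (hdiam n i) hr.le
      · rw [not_nonempty_iff_eq_empty.mp hne]
        simp [hr]
    rw [htend.liminf_eq] at h1
    exact h1
  exact le_antisymm (hle.trans hle2) (zero_le)

lemma pt_zero {d : ℕ} (t : ℝ) (y : E d) : (pt t y) 0 = t := by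
  simp [pt]

lemma pt_succ {d : ℕ} (t : ℝ) (y : E d) (i : Fin d) : (pt t y) i.succ = y i := by
  simp [pt]

lemma pt_isometry {d : ℕ} (t : ℝ) : Isometry (fun y : E d => pt t y) := by
  refine Isometry.of_dist_eq fun y z => ?_
  rw [EuclideanSpace.dist_eq, EuclideanSpace.dist_eq, Fin.sum_univ_succ]
  simp [pt_zero, pt_succ]

lemma coord_lip {d : ℕ} : LipschitzWith 1 (fun x : E (d + 1) => x 0) := by
  refine LipschitzWith.of_dist_le_mul fun x y => ?_
  rw [NNReal.coe_one, one_mul, dist_eq_norm, dist_eq_norm]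
  exact (PiLp.norm_apply_le (x - y) 0)

theorem jobS : JobS := by
  intro d K T s hT hs
  -- the projection
  have hproj : 1 ≤ dimH K := by
    have hsub : T ⊆ (fun x : E (d + 1) => x 0) '' K := fun t ht => by
      obtain ⟨y, hy⟩ := (hs t ht).1
      exact ⟨_, hy, pt_zero t y⟩
    have h1 : (1 : ℝ≥0∞) ≤ dimH T := by
      have h0 : Measure.hausdorffMeasure ((1 : ℝ≥0) : ℝ) T ≠ 0 := by
        rw [NNReal.coe_one, hausdorffMeasure_real]
        exact hT.ne'
      simpa using le_dimH_of_hausdorffMeasure_ne_zero h0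
    exact h1.trans ((dimH_mono hsub).trans (coord_lip.dimH_image_le K))
  by_contra hcon
  rw [not_le] at hcon
  obtain ⟨q, hq1, hq2⟩ := ENNReal.lt_iff_exists_nnreal_btwn.mp hcon
  have hq : (1 : ℝ≥0) < q := by
    have := hproj.trans_lt hq1
    exact_mod_cast this
  obtain ⟨r, hr, rfl⟩ : ∃ r : ℝ≥0, 0 < r ∧ q = r + 1 :=
    ⟨q - 1, tsub_pos_of_lt hq, (tsub_add_cancel_of_le hq.le).symm⟩
  have hrs : (r : ℝ≥0∞) < s := by
    have : (r : ℝ≥0∞) + 1 < s + 1 := by exact_mod_cast hq2
    exact lt_of_add_lt_add_right this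
  have hK := hausdorffMeasure_of_dimH_lt hq1
  rw [NNReal.coe_add, NNReal.coe_one] at hK
  have hnull := null_slices (fun x : E (d + 1) => x 0) coord_lip (fun t (y : E d) => pt t y)
    (fun t => pt_isometry t) (fun t y => pt_zero t y) (r := r) (by exact_mod_cast hr) hK
  have hTsub : T ⊆ {t : ℝ | ¬ Measure.hausdorffMeasure (r : ℝ) {y : E d | pt t y ∈ K} = 0} := by
    intro t ht h0
    have h1 := hausdorffMeasure_of_lt_dimH (hrs.trans_le (hs t ht).2)
    rw [h0] at h1
    exact ENNReal.zero_ne_top h1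
  have : volume T = 0 := measure_mono_null hTsub hnull
  exact hT.ne' this

end Pool.Agent.V5helper29.SSK
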