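import Pool.Agent.V5helper28.SSK.Defs

/-!
# JOB H: a self-similar set without dimension drop
-/

set_option autoImplicit false

namespace Pool.Agent.V5helper29.SSK

open MeasureTheory Set Filter Topology Metric
open Pool.Agent.V5helper28.SSK
open scoped ENNReal NNReal

section coding

variable {V : Type*} [NormedAddCommGroup V] [NormedSpace ℝ V] [CompleteSpace V]

/-- the coding map -/
noncomputable def Phi {k : ℕ} (R : ℝ) (P : Fin k → V) (a : ℕ → Fin k) : V := ∑' j, R ^ j • P (a j)

lemma summable_Phi {k : ℕ} {R : ℝ} (hR0 : 0 < R) (hR1 : R < 1) (P : Fin k → V) (a : ℕ → Fin k) :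
    Summable fun j : ℕ => R ^ j • P (a j) := by
  have hk : ∀ j : ℕ, ‖P (a j)‖ ≤ ∑ i, ‖P i‖ := fun j =>
    Finset.single_le_sum (f := fun i => ‖P i‖) (fun i _ => norm_nonneg _) (Finset.mem_univ (a j))
  refine Summable.of_norm_bounded (g := fun j => R ^ j * ∑ i, ‖P i‖)
    ((summable_geometric_of_lt_one hR0.le hR1).mul_right _) fun j => ?_
  rw [norm_smul, Real.norm_of_nonneg (pow_nonneg hR0.le j)]
  exact mul_le_mul_of_nonneg_left (hk j) (pow_nonneg hR0.le j)

lemma Phi_succ {k : ℕ} {R : ℝ} (hR0 : 0 < R) (hR1 : R < 1) (P : Fin k → V) (a : ℕ → Fin k) :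
    Phi R P a = P (a 0) + R • Phi R P (fun j => a (j + 1)) := by
  unfold Phi
  rw [(summable_Phi hR0 hR1 P a).tsum_eq_zero_add, pow_zero, one_smul,
    ← (summable_Phi hR0 hR1 P (fun j => a (j + 1))).tsum_const_smul]
  congr 1
  refine tsum_congr fun j => ?_
  rw [smul_smul, pow_succ']

lemma Phi_mem {k : ℕ} {R : ℝ} (hR0 : 0 < R) (hR1 : R < 1) (P : Fin k → V) {A : Set V}
    (hA : IsClosed A) (hne : A.Nonempty) (hinv : ∀ i, ∀ x ∈ A, P i + R • x ∈ A) (a : ℕ → Fin k) :
    Phi R P a ∈ A := by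
  obtain ⟨x0, hx0⟩ := hne
  have hpart : ∀ (m : ℕ) (a : ℕ → Fin k), ∑ j ∈ Finset.range m, R ^ j • P (a j) + R ^ m • x0 ∈ A := by
    intro m
    induction m with
    | zero => intro a; simpa using hx0
    | succ m ih =>
      intro a
      have h1 := hinv (a 0) _ (ih fun j => a (j + 1))
      convert h1 using 1
      rw [Finset.sum_range_succ', smul_add, Finset.smul_sum, pow_zero, one_smul, smul_smul,
        ← pow_succ']
      simp only [smul_smul, ← pow_succ']
      abel
  refine hA.mem_of_tendsto (b := atTop)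
    (f := fun m : ℕ => ∑ j ∈ Finset.range m, R ^ j • P (a j) + R ^ m • x0) ?_
    (Eventually.of_forall fun m => hpart m a)
  have h1 := (summable_Phi hR0 hR1 P a).hasSum.tendsto_sum_nat
  have h2 : Tendsto (fun m : ℕ => R ^ m • x0) atTop (𝓝 0) := by
    have := (tendsto_pow_atTop_nhds_zero_of_lt_one hR0.le hR1).smul_const x0
    simpa using this
  simpa [Phi] using h1.add h2

lemma Phi_sep {k : ℕ} {R g : ℝ} (hR0 : 0 < R) (hR1 : R < 1) (P : Fin k → V) {A : Set V}
    (hA : IsClosed A) (hne : A.Nonempty) (hinv : ∀ i, ∀ x ∈ A, P i + R • x ∈ A)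
    (hsep : ∀ i i', i ≠ i' → ∀ x ∈ A, ∀ y ∈ A, g * R ≤ ‖(P i + R • x) - (P i' + R • y)‖) :
    ∀ (m : ℕ) (a b : ℕ → Fin k), (∀ j < m, a j = b j) → a m ≠ b m →
      g * R ^ (m + 1) ≤ ‖Phi R P a - Phi R P b‖ := by
  intro m
  induction m with
  | zero =>
    intro a b _ hab
    rw [Phi_succ hR0 hR1 P a, Phi_succ hR0 hR1 P b, zero_add, pow_one]
    exact hsep _ _ hab _ (Phi_mem hR0 hR1 P hA hne hinv _) _ (Phi_mem hR0 hR1 P hA hne hinv _)
  | succ m ih =>
    intro a b hlt hab
    rw [Phi_succ hR0 hR1 P a, Phi_succ hR0 hR1 P b, hlt 0 (Nat.succ_pos m), add_sub_add_left_eq_sub,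
      ← smul_sub, norm_smul, Real.norm_of_nonneg hR0.le]
    have h1 := ih (fun j => a (j + 1)) (fun j => b (j + 1)) (fun j hj => hlt (j + 1) (by omega)) hab
    calc g * R ^ (m + 1 + 1) = R * (g * R ^ (m + 1)) := by ring
      _ ≤ _ := mul_le_mul_of_nonneg_left h1 hR0.le

/-- the dimension of a set which contains the images of itself by `k` separated homotheties of
ratio `R`. -/
lemma dim_ge {k : ℕ} {R g : ℝ} (hR0 : 0 < R) (hR1 : R < 1) (hk : 2 ≤ k) (hg : 0 < g) (P : Fin k → V)
    {A : Set V} (hA : IsClosed A) (hne : A.Nonempty) (hinv : ∀ i, ∀ x ∈ A, P i + R • x ∈ A)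
    (hsep : ∀ i i', i ≠ i' → ∀ x ∈ A, ∀ y ∈ A, g * R ≤ ‖(P i + R • x) - (P i' + R • y)‖) :
    ENNReal.ofReal (Real.log k / Real.log R⁻¹) ≤ dimH A := by
  classical
  have : NeZero k := ⟨by omega⟩
  have hk1 : (1 : ℝ) < k := by exact_mod_cast (by omega : 1 < k)
  have hlogk : 0 < Real.log k := Real.log_pos hk1
  have hlogR : 0 < Real.log R⁻¹ := Real.log_pos ((one_lt_inv₀ hR0).mpr hR1)
  set s : ℝ := Real.log k / Real.log R⁻¹ with hs
  have hs0 : 0 < s := div_pos hlogk hlogR
  -- `k⁻¹ = R ^ s`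
  have hRs : R ^ s = (k : ℝ)⁻¹ := by
    rw [Real.rpow_def_of_pos hR0, hs, Real.log_inv]
    have : Real.log R ≠ 0 := by
      rw [Real.log_inv] at hlogR
      linarith
    rw [show Real.log R * (Real.log k / -Real.log R) = -Real.log k by field_simp, Real.exp_neg,
      Real.exp_log (by linarith)]
  -- first difference
  have hdiff : ∀ a b : ℕ → Fin k, a ≠ b → ∃ m, (∀ j < m, a j = b j) ∧ a m ≠ b m := by
    intro a b hab
    have hex : ∃ m, a m ≠ b m := by
      by_contra h
      push Not at h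
      exact hab (funext h)
    refine ⟨Nat.find hex, fun j hj => ?_, Nat.find_spec hex⟩
    have := Nat.find_min hex hj
    simpa using this
  have hinj : Function.Injective (Phi R P) := by
    intro a b hab
    by_contra hne'
    obtain ⟨m, hm1, hm2⟩ := hdiff a b hne'
    have := Phi_sep hR0 hR1 P hA hne hinv hsep m a b hm1 hm2
    rw [hab, sub_self, norm_zero] at this
    have h2 : 0 < g * R ^ (m + 1) := mul_pos hg (pow_pos hR0 _)
    linarith
  -- the inverse coding map
  set G : V → ℝ := fun x => Real.ofDigits (Function.invFun (Phi R P) x) with hG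
  have hGPhi : ∀ a, G (Phi R P a) = Real.ofDigits a := fun a => by
    simp only [hG, Function.leftInverse_invFun hinj a]
  set C : ℝ := ((g * R)⁻¹) ^ s with hC
  have hC0 : 0 ≤ C := Real.rpow_nonneg (inv_nonneg.mpr (mul_pos hg hR0).le) _
  have hHol : HolderOnWith C.toNNReal s.toNNReal G (range (Phi R P)) := by
    rintro _ ⟨a, rfl⟩ _ ⟨b, rfl⟩
    rw [hGPhi, hGPhi]
    by_cases hab : a = b
    · subst hab
      simp
    obtain ⟨m, hm1, hm2⟩ := hdiff a b hab
    have h1 := Phi_sep hR0 hR1 P hA hne hinv hsep m a b hm1 hm2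
    have h2 := Real.abs_ofDigits_sub_ofDigits_le (x := a) (y := b) (n := m) (fun i hi => hm1 i hi)
    have h3 : |Real.ofDigits a - Real.ofDigits b| ≤ C * ‖Phi R P a - Phi R P b‖ ^ s := by
      calc |Real.ofDigits a - Real.ofDigits b| ≤ ((k : ℝ) ^ m)⁻¹ := h2
        _ = (R ^ m) ^ s := by
          rw [← Real.rpow_natCast R m, ← Real.rpow_mul hR0.le, mul_comm, Real.rpow_mul hR0.le, hRs,
            Real.rpow_natCast, inv_pow]
        _ ≤ ((g * R)⁻¹ * ‖Phi R P a - Phi R P b‖) ^ s := by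
          refine Real.rpow_le_rpow (pow_nonneg hR0.le m) ?_ hs0.le
          have : R ^ m = (g * R)⁻¹ * (g * R ^ (m + 1)) := by
            field_simp
            ring
          rw [this]
          exact mul_le_mul_of_nonneg_left h1 (inv_nonneg.mpr (mul_pos hg hR0).le)
        _ = C * ‖Phi R P a - Phi R P b‖ ^ s := by
          rw [Real.mul_rpow (inv_nonneg.mpr (mul_pos hg hR0).le) (norm_nonneg _)]
    rw [edist_dist, Real.dist_eq, edist_dist, dist_eq_norm, Real.coe_toNNReal _ hs0.le]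
    calc ENNReal.ofReal |Real.ofDigits a - Real.ofDigits b|
        ≤ ENNReal.ofReal (C * ‖Phi R P a - Phi R P b‖ ^ s) := ENNReal.ofReal_le_ofReal h3
      _ = (C.toNNReal : ℝ≥0∞) * ENNReal.ofReal ‖Phi R P a - Phi R P b‖ ^ s := by
        rw [ENNReal.ofReal_mul hC0, ENNReal.ofReal_rpow_of_nonneg (norm_nonneg _) hs0.le]
        rfl
  have hdim := hHol.dimH_image_le (by simpa using hs0)
  have himg : Ico (0 : ℝ) 1 ⊆ G '' range (Phi R P) := by
    intro x hx
    refine ⟨Phi R P (Real.digits x k), ⟨_, rfl⟩, ?_⟩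
    rw [hGPhi, Real.ofDigits_digits (by omega) hx]
  have h1 : (1 : ℝ≥0∞) ≤ dimH (G '' range (Phi R P)) := by
    refine le_trans ?_ (dimH_mono himg)
    have : dimH (Ico (0 : ℝ) 1) = 1 := by
      rw [Real.dimH_of_nonempty_interior]
      · simp
      · rw [interior_Ico]; exact ⟨1 / 2, by norm_num, by norm_num⟩
    rw [this]
  have h2 := h1.trans hdim
  rw [ENNReal.le_div_iff_mul_le (Or.inl (by simpa using hs0)) (Or.inl ENNReal.coe_ne_top),
    one_mul] at h2
  refine (le_trans ?_ h2).trans (dimH_mono ?_)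
  · rfl
  · rintro _ ⟨a, rfl⟩
    exact Phi_mem hR0 hR1 P hA hne hinv a

end coding

lemma X_succ {d : ℕ} {I : Type} (c : I → E d) (r : ℝ) (n : ℕ) (ω : Fin (n + 1) → I) :
    X c r (n + 1) ω = c (ω 0) + r • X c r n (fun j => ω j.succ) := by
  unfold X
  rw [Fin.sum_univ_succ, Finset.smul_sum]
  congr 1
  · simp
  · refine Finset.sum_congr rfl fun j _ => ?_
    rw [smul_smul, Fin.val_succ, pow_succ']

lemma X_inv {d : ℕ} {I : Type} (c : I → E d) (r : ℝ) {A : Set (E d)}
    (hinv : ∀ i, ∀ x ∈ A, r • x + c i ∈ A) :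
    ∀ (n : ℕ) (ω : Fin n → I), ∀ x ∈ A, X c r n ω + r ^ n • x ∈ A := by
  intro n
  induction n with
  | zero => intro ω x hx; simpa [X] using hx
  | succ n ih =>
    intro ω x hx
    have h1 := hinv (ω 0) _ (ih (fun j => ω j.succ) x hx)
    convert h1 using 1
    rw [X_succ, smul_add, smul_smul, ← pow_succ']
    abel

theorem jobH : JobH := by
  intro d I _ _ c r ρ D A hr0 hr1 hD hne hA hdiam hinv hthin
  -- it suffices to lose `η`
  have hlogr : 0 < Real.log r⁻¹ := Real.log_pos ((one_lt_inv₀ hr0).mpr hr1)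
  set N : ℝ := (Fintype.card I : ℝ) with hN
  have hN1 : 1 ≤ N := by
    rw [hN]; exact_mod_cast Fintype.card_pos
  have key : ∀ η : ℝ, 0 < η → ENNReal.ofReal (Real.log N / Real.log r⁻¹ - η) ≤ dimH A := by
    intro η hη
    by_cases hpos : Real.log N / Real.log r⁻¹ - η ≤ 0
    · rw [ENNReal.ofReal_of_nonpos hpos]; exact bot_le
    rw [not_le] at hpos
    have hNη : 1 < N * r ^ η := by
      have h1 : η * Real.log r⁻¹ < Real.log N := by
        have := sub_pos.mp hpos
        rwa [lt_div_iff₀ hlogr] at this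
      rw [← Real.log_pos_iff (by positivity), Real.log_mul (by linarith) (by positivity),
        Real.log_rpow hr0]
      rw [Real.log_inv] at h1
      linarith
    have hnt := hthin η hη
    unfold Thin at hnt
    push Not at hnt
    obtain ⟨n, hn, F, hF, hcard⟩ := hnt 1
    have hn0 : 0 < n := hn
    set k : ℕ := F.card with hkdef
    have hk1 : (1 : ℝ) < k := lt_trans (one_lt_pow₀ hNη hn0.ne') hcard
    have hk : 2 ≤ k := by exact_mod_cast hk1
    set e : Fin k ≃ F := (Finset.equivFin F).symm with he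
    have hR0 : 0 < r ^ n := pow_pos hr0 n
    have hR1 : r ^ n < 1 := pow_lt_one₀ hr0.le hr1 hn0.ne'
    have h1 := dim_ge (R := r ^ n) (g := ρ - D) hR0 hR1 hk (sub_pos.mpr hD)
      (fun i => X c r n (e i : Fin n → I)) hA hne
      (fun i x hx => X_inv c r hinv n _ x hx)
      (fun i i' hii x hx y hy => by
        have hne' : (e i : Fin n → I) ≠ (e i' : Fin n → I) := fun h => hii (e.injective (Subtype.ext h))
        have h2 := hF _ (e i).2 _ (e i').2 hne'
        have h3 : ‖r ^ n • (x - y)‖ ≤ r ^ n * D := by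
          rw [norm_smul, Real.norm_of_nonneg hR0.le]
          exact mul_le_mul_of_nonneg_left (hdiam x hx y hy) hR0.le
        have h4 : (X c r n (e i : Fin n → I) + r ^ n • x) - (X c r n (e i' : Fin n → I) + r ^ n • y)
            = (X c r n (e i : Fin n → I) - X c r n (e i' : Fin n → I)) - (-(r ^ n • (x - y))) := by
          rw [smul_sub]; abel
        rw [h4]
        have h5 := norm_sub_norm_le (X c r n (e i : Fin n → I) - X c r n (e i' : Fin n → I))
          (-(r ^ n • (x - y)))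
        rw [norm_neg] at h5
        linarith)
    refine le_trans (ENNReal.ofReal_le_ofReal ?_) h1
    rw [← inv_pow, Real.log_pow, le_div_iff₀ (by positivity)]
    have h6 : Real.log ((N * r ^ η) ^ n) ≤ Real.log k :=
      Real.log_le_log (by positivity) hcard.le
    rw [Real.log_pow, Real.log_mul (by linarith) (by positivity), Real.log_rpow hr0] at h6
    refine le_trans (le_of_eq ?_) h6
    have h7 : (Real.log N / Real.log r⁻¹ - η) * ((n : ℝ) * Real.log r⁻¹)
        = n * (Real.log N - η * Real.log r⁻¹) := by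
      have h8 : Real.log N / Real.log r⁻¹ * Real.log r⁻¹ = Real.log N :=
        div_mul_cancel₀ _ hlogr.ne'
      calc (Real.log N / Real.log r⁻¹ - η) * ((n : ℝ) * Real.log r⁻¹)
          = n * (Real.log N / Real.log r⁻¹ * Real.log r⁻¹ - η * Real.log r⁻¹) := by ring
        _ = _ := by rw [h8]
    rw [h7, Real.log_inv]
    ring
  -- let `η → 0`
  refine le_of_forall_lt fun x hx => ?_
  have hx' : x < ENNReal.ofReal (Real.log N / Real.log r⁻¹) := hx
  obtain ⟨y, hy1, hy2⟩ := ENNReal.lt_iff_exists_nnreal_btwn.mp hx'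
  have hy3 : (y : ℝ) < Real.log N / Real.log r⁻¹ := by
    rw [ENNReal.ofReal, ENNReal.coe_lt_coe] at hy2
    exact Real.lt_toNNReal_iff_coe_lt.mp hy2
  have h1 := key (Real.log N / Real.log r⁻¹ - y) (sub_pos.mpr hy3)
  rw [sub_sub_cancel, ENNReal.ofReal_coe_nnreal] at h1
  exact hy1.trans_le h1

end Pool.Agent.V5helper29.SSK
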